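import Pool.Agent.V5helper50.PW.Win

/-!
# Goldbach representations with a prime-indexed prime in EVERY short interval

Every interval of length `x ^ θ` at `x`, with a fixed exponent `θ < 1 / 6`, contains many even numbers `2 n = p + q` with
`p`, `q` prime for which also `π(p)` (and any given number of further iterates `π(π(p))`, ...) is prime.

Ingredients from the library: Huxley's theorem on primes in almost all intervals of length `x ^ (1 / 6 + ε)`
(`Pool.Agent.V5helper51.CR6`), Hoheisel's theorem (`Pool.Agent.H295R3`), Selberg's upper bound for prime pairs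
(`Pool.Agent.H262R2.UK`), the mean value of the singular factor over the differences of a sparse set
(`Pool.Agent.H197R2.PG`). New are the transfer of the theorem on almost all intervals to the `k`-fold prime-indexed primes
(`Pool.Agent.V5helper50.PW.Blk`) and the two moments in a short interval (`PW.Sec`, `PW.Win`).
-/

set_option autoImplicit false

namespace Pool.Agent.Results.MP_5d7b92_nt.EveryShortInterval

open Filter

open Finset Pool.Agent.V5helper50.PW in
theorem aux (δ : ℝ) (hδ : 0 < δ) (hδ1 : δ < 1) (k : ℕ) (hk : 1 ≤ k) (c : ℝ) (hc : 0 < c)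
    (hw : ∀ᶠ x : ℕ in atTop, ∀ h : ℕ,
    (x : ℝ) ^ (1 / 6 - δ / 24) ≤ h → (h : ℝ) ≤ (x : ℝ) ^ (1 / 2 : ℝ) → ∃ T : Finset ℕ, T ⊆ Ioc x (x + h) ∧
      (∀ N ∈ T, ∃ p q : ℕ, Pool.Agent.H197R2.PG.PI k p ∧ (p : ℝ) ≤ (x : ℝ) ^ (1 - δ / 4) ∧ q.Prime ∧ 3 ≤ q ∧
        p + q = N) ∧
      c * h / Real.log (Real.log (Real.log x)) ≤ #T) :
    ∀ᶠ x : ℕ in atTop, ∀ h : ℕ, (x : ℝ) ^ (1 / 6 - δ / 48) ≤ h → h ≤ x →
      c / 4 * h / Real.log (Real.log (Real.log x)) ≤
        Set.ncard {n : ℕ | x < 2 * n ∧ 2 * n ≤ x + h ∧ ∃ p : ℕ, p < 2 * n ∧ (p : ℝ) ≤ (x : ℝ) ^ (1 - δ / 8) ∧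
          (∀ j ≤ k, (Nat.primeCounting^[j] p).Prime) ∧ (2 * n - p).Prime} := by
  classical
  obtain ⟨x1, hx1⟩ := eventually_atTop.mp hw
  have hcast := tendsto_natCast_atTop_atTop (R := ℝ)
  have hlogt : Tendsto (fun x : ℕ => Real.log (x : ℝ)) atTop atTop := Real.tendsto_log_atTop.comp hcast
  have hll : Tendsto (fun x : ℕ => Real.log (Real.log (x : ℝ))) atTop atTop := Real.tendsto_log_atTop.comp hlogt
  have hlll : Tendsto (fun x : ℕ => Real.log (Real.log (Real.log (x : ℝ)))) atTop atTop :=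
    Real.tendsto_log_atTop.comp hll
  have hp : ∀ (a b : ℝ), 0 < a → ∀ᶠ x : ℕ in atTop, b ≤ (x : ℝ) ^ a := fun a b ha =>
    ((tendsto_rpow_atTop ha).comp hcast).eventually_ge_atTop b
  filter_upwards [hp (δ / 48) 2 (by linarith), hp (δ / 8) 2 (by linarith), hp (1 / 3) 2 (by norm_num),
    hlogt.eventually_ge_atTop 2, hll.eventually_ge_atTop 2, hlll.eventually_ge_atTop 1,
    eventually_ge_atTop (x1 + 10)] with x p1 p2 p3 hL1 hL2 hL3 hx h hh hhx
  have hx10 : (10 : ℝ) ≤ x := by exact_mod_cast (by omega : 10 ≤ x)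
  have hx0 : (0 : ℝ) < x := by linarith
  set h1 := ⌈(x : ℝ) ^ (1 / 6 - δ / 48)⌉₊ with hh1
  have a1 : (x : ℝ) ^ (1 / 6 - δ / 48) ≤ h1 := Nat.le_ceil _
  have a2 : (h1 : ℝ) < (x : ℝ) ^ (1 / 6 - δ / 48) + 1 := Nat.ceil_lt_add_one (by positivity)
  have a3 : h1 ≤ h := Nat.ceil_le.mpr hh
  have a4 : (1 : ℝ) ≤ (x : ℝ) ^ (1 / 6 - δ / 48) := Real.one_le_rpow (by linarith) (by linarith)
  have h10 : (0 : ℝ) < h1 := by linarith
  have h10' : 0 < h1 := by exact_mod_cast h10
  set m := h / h1 with hm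
  have hm1 : 1 ≤ m := (Nat.one_le_div_iff h10').mpr a3
  have hmh : m * h1 ≤ h := Nat.div_mul_le_self _ _
  have hmh2 : h ≤ 2 * (m * h1) := by
    have := Nat.lt_div_mul_add (a := h) h10'
    have h2 : h1 ≤ m * h1 := Nat.le_mul_of_pos_left _ hm1
    rw [← hm] at this
    omega
  set l3 := Real.log (Real.log (Real.log (x : ℝ))) with hl3
  -- the windows
  have hwin : ∀ i, ∃ T : Finset ℕ, i < m → T ⊆ Ioc (x + i * h1) (x + i * h1 + h1) ∧
      (∀ N ∈ T, ∃ p q : ℕ, Pool.Agent.H197R2.PG.PI k p ∧ (p : ℝ) ≤ (x : ℝ) ^ (1 - δ / 8) ∧ q.Prime ∧ 3 ≤ q ∧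
        p + q = N) ∧ c / 2 * h1 / l3 ≤ #T := by
    intro i
    by_cases hi : i < m
    swap
    · exact ⟨∅, fun h => absurd h hi⟩
    have b1 : i * h1 + h1 ≤ h := by
      have : (i + 1) * h1 ≤ m * h1 := Nat.mul_le_mul_right _ hi
      linarith
    have b2 : x + i * h1 ≤ 2 * x := by omega
    have b3 : ((x + i * h1 : ℕ) : ℝ) ≤ 2 * x := by exact_mod_cast b2
    have b4 : (x : ℝ) ≤ ((x + i * h1 : ℕ) : ℝ) := by exact_mod_cast Nat.le_add_right _ _
    set X := x + i * h1 with hX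
    have w1 : (X : ℝ) ^ (1 / 6 - δ / 24) ≤ h1 := by
      calc (X : ℝ) ^ (1 / 6 - δ / 24) ≤ (2 * x) ^ (1 / 6 - δ / 24) := Real.rpow_le_rpow (by positivity) b3 (by linarith)
        _ = (2 : ℝ) ^ (1 / 6 - δ / 24) * (x : ℝ) ^ (1 / 6 - δ / 24) := Real.mul_rpow (by norm_num) hx0.le
        _ ≤ (2 : ℝ) ^ (1 : ℝ) * (x : ℝ) ^ (1 / 6 - δ / 24) := by
            gcongr
            · norm_num
            · linarith
        _ ≤ (x : ℝ) ^ (δ / 48) * (x : ℝ) ^ (1 / 6 - δ / 24) := by
            rw [Real.rpow_one]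
            gcongr
        _ = (x : ℝ) ^ (1 / 6 - δ / 48) := by
            rw [← Real.rpow_add hx0]
            congr 1
            ring
        _ ≤ h1 := a1
    have w2 : (h1 : ℝ) ≤ (X : ℝ) ^ (1 / 2 : ℝ) := by
      have d1 : (x : ℝ) ^ (1 / 6 - δ / 48) ≤ (x : ℝ) ^ (1 / 6 : ℝ) :=
        Real.rpow_le_rpow_of_exponent_le (by linarith) (by linarith)
      have d2 : (1 : ℝ) ≤ (x : ℝ) ^ (1 / 6 : ℝ) := Real.one_le_rpow (by linarith) (by norm_num)
      calc (h1 : ℝ) ≤ 2 * (x : ℝ) ^ (1 / 6 : ℝ) := by linarith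
        _ ≤ (x : ℝ) ^ (1 / 3 : ℝ) * (x : ℝ) ^ (1 / 6 : ℝ) := by gcongr
        _ = (x : ℝ) ^ (1 / 2 : ℝ) := by
            rw [← Real.rpow_add hx0]
            norm_num
        _ ≤ (X : ℝ) ^ (1 / 2 : ℝ) := Real.rpow_le_rpow hx0.le b4 (by norm_num)
    obtain ⟨T, hT1, hT2, hT3⟩ := hx1 X (by omega) h1 w1 w2
    refine ⟨T, fun _ => ⟨hT1, ?_, ?_⟩⟩
    · intro N hN
      obtain ⟨p, q, h1', h2', h3', h4', h5'⟩ := hT2 N hN
      refine ⟨p, q, h1', h2'.trans ?_, h3', h4', h5'⟩
      calc (X : ℝ) ^ (1 - δ / 4) ≤ (2 * x) ^ (1 - δ / 4) := Real.rpow_le_rpow (by positivity) b3 (by linarith)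
        _ = (2 : ℝ) ^ (1 - δ / 4) * (x : ℝ) ^ (1 - δ / 4) := Real.mul_rpow (by norm_num) hx0.le
        _ ≤ (2 : ℝ) ^ (1 : ℝ) * (x : ℝ) ^ (1 - δ / 4) := by
            gcongr
            · norm_num
            · linarith
        _ ≤ (x : ℝ) ^ (δ / 8) * (x : ℝ) ^ (1 - δ / 4) := by
            rw [Real.rpow_one]
            gcongr
        _ = (x : ℝ) ^ (1 - δ / 8) := by
            rw [← Real.rpow_add hx0]
            congr 1
            ring
    · refine le_trans ?_ hT3
      -- the triple logarithm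
      have c1 : Real.log (X : ℝ) ≤ 2 * Real.log x := by
        calc Real.log (X : ℝ) ≤ Real.log (x * x) := by
              apply Real.log_le_log (by linarith)
              nlinarith
          _ = 2 * Real.log x := by
              rw [Real.log_mul hx0.ne' hx0.ne']
              ring
      have c0 : Real.log (x : ℝ) ≤ Real.log X := Real.log_le_log hx0 b4
      have c2 : Real.log (Real.log (X : ℝ)) ≤ 2 * Real.log (Real.log x) := by
        calc Real.log (Real.log (X : ℝ)) ≤ Real.log (Real.log x * Real.log x) := by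
              apply Real.log_le_log (by linarith)
              nlinarith
          _ = 2 * Real.log (Real.log x) := by
              rw [Real.log_mul (by linarith) (by linarith)]
              ring
      have c20 : Real.log (Real.log (x : ℝ)) ≤ Real.log (Real.log X) := Real.log_le_log (by linarith) c0
      have c3 : Real.log (Real.log (Real.log (X : ℝ))) ≤ 2 * l3 := by
        calc Real.log (Real.log (Real.log (X : ℝ))) ≤ Real.log (Real.log (Real.log x) * Real.log (Real.log x)) := by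
              apply Real.log_le_log (by linarith)
              nlinarith
          _ = 2 * l3 := by
              rw [Real.log_mul (by linarith) (by linarith)]
              ring
      have c30 : l3 ≤ Real.log (Real.log (Real.log (X : ℝ))) := Real.log_le_log (by linarith) c20
      calc c / 2 * h1 / l3 = c * h1 / (2 * l3) := by
            field_simp
        _ ≤ c * h1 / Real.log (Real.log (Real.log (X : ℝ))) := by
            apply div_le_div_of_nonneg_left (by positivity) (by linarith) c3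
  choose T hT using hwin
  set U := (range m).biUnion T with hU
  have hdis : Set.PairwiseDisjoint (↑(range m) : Set ℕ) T := by
    intro i hi j hj hij
    rw [mem_coe, Finset.mem_range] at hi hj
    simp only [Function.onFun]
    rw [Finset.disjoint_left]
    intro n e1 e2
    have f1 := mem_Ioc.mp ((hT i hi).1 e1)
    have f2 := mem_Ioc.mp ((hT j hj).1 e2)
    rcases lt_or_gt_of_ne hij with g | g
    · have : (i + 1) * h1 ≤ j * h1 := Nat.mul_le_mul_right _ g
      rw [add_mul, one_mul] at this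
      omega
    · have : (j + 1) * h1 ≤ i * h1 := Nat.mul_le_mul_right _ g
      rw [add_mul, one_mul] at this
      omega
  have hUc : c / 4 * h / l3 ≤ #U := by
    rw [hU, Finset.card_biUnion hdis]
    push_cast
    have e1 : (h : ℝ) ≤ 2 * (m * h1) := by exact_mod_cast hmh2
    calc c / 4 * h / l3 ≤ c / 4 * (2 * (m * h1)) / l3 := by gcongr
      _ = m * (c / 2 * h1 / l3) := by ring
      _ = ∑ _i ∈ range m, (c / 2 * h1 / l3) := by
          rw [Finset.sum_const, Finset.card_range, nsmul_eq_mul]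
      _ ≤ ∑ i ∈ range m, (#(T i) : ℝ) := Finset.sum_le_sum (fun i hi => (hT i (Finset.mem_range.mp hi)).2.2)
  have hUm : ∀ N ∈ U, (x < N ∧ N ≤ x + h) ∧ ∃ p q : ℕ, Pool.Agent.H197R2.PG.PI k p ∧
      (p : ℝ) ≤ (x : ℝ) ^ (1 - δ / 8) ∧ q.Prime ∧ 3 ≤ q ∧ p + q = N := by
    intro N hN
    rw [hU, mem_biUnion] at hN
    obtain ⟨i, hi, hN⟩ := hN
    rw [Finset.mem_range] at hi
    have e1 := mem_Ioc.mp ((hT i hi).1 hN)
    have : (i + 1) * h1 ≤ m * h1 := Nat.mul_le_mul_right _ hi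
    rw [add_mul, one_mul] at this
    exact ⟨⟨by omega, by omega⟩, (hT i hi).2.1 N hN⟩
  -- parity
  have hodd : ∀ p, Pool.Agent.H197R2.PG.PI k p → p % 2 = 1 := by
    intro a ha
    have h0 : a.Prime := ha 0 (by omega)
    have h1 : (Nat.primeCounting a).Prime := ha 1 hk
    have h2 : a ≠ 2 := by
      rintro rfl
      have : Nat.primeCounting 2 = 1 := by decide
      rw [this] at h1
      exact Nat.not_prime_one h1
    rcases h0.eq_two_or_odd with h | h
    · exact absurd h h2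
    · exact h
  have hUe : ∀ N ∈ U, N % 2 = 0 := by
    intro N hN
    obtain ⟨_, p, q, h1', _, h3', h4', h5'⟩ := hUm N hN
    have e1 := hodd p h1'
    have e2 : q % 2 = 1 := by
      rcases h3'.eq_two_or_odd with h | h
      · omega
      · exact h
    omega
  set W := {n : ℕ | x < 2 * n ∧ 2 * n ≤ x + h ∧ ∃ p : ℕ, p < 2 * n ∧ (p : ℝ) ≤ (x : ℝ) ^ (1 - δ / 8) ∧
          (∀ j ≤ k, (Nat.primeCounting^[j] p).Prime) ∧ (2 * n - p).Prime} with hW
  have hWfin : W.Finite := (Set.finite_Iic (x + h)).subset (fun n hn => by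
    have := hn.2.1
    rw [Set.mem_Iic]
    omega)
  have hsub : ((U.image (fun N => N / 2) : Finset ℕ) : Set ℕ) ⊆ W := by
    intro n hn
    rw [mem_coe, mem_image] at hn
    obtain ⟨N, hN, rfl⟩ := hn
    have e0 := hUe N hN
    obtain ⟨⟨e1, e2⟩, p, q, h1', h2', h3', h4', h5'⟩ := hUm N hN
    have e3 : 2 * (N / 2) = N := by omega
    refine ⟨by omega, by omega, p, by omega, h2', h1', ?_⟩
    have e4 : 2 * (N / 2) - p = q := by omega
    rw [e4]
    exact h3'
  have hcardU : #(U.image (fun N => N / 2)) = #U := by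
    apply Finset.card_image_of_injOn
    intro a ha b hb hab
    have e1 := hUe a ha
    have e2 := hUe b hb
    simp only at hab
    omega
  have h5 := Set.ncard_le_ncard hsub hWfin
  rw [Set.ncard_coe_finset, hcardU] at h5
  refine hUc.trans ?_
  exact_mod_cast h5

/-- There are absolute exponents `θ < 1 / 6` and `κ < 1` such that for every `k ≥ 1` there is `c > 0` such that for all
large `x` and EVERY `h` with `x ^ θ ≤ h ≤ x`: for at least `c h / log log log x` of the integers `n` with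
`x < 2 n ≤ x + h` there is a prime `p < 2 n`, even `p ≤ x ^ κ`, such that `2 n - p` is prime and
`p, π(p), π(π(p)), ..., π^k(p)` are all prime (`k = 1` is the condition of the problem). -/
theorem result : ∃ θ κ : ℝ, 0 < θ ∧ θ < 1 / 6 ∧ κ < 1 ∧ ∀ k : ℕ, 1 ≤ k → ∃ c : ℝ, 0 < c ∧
    ∀ᶠ x : ℕ in atTop, ∀ h : ℕ, (x : ℝ) ^ θ ≤ h → h ≤ x →
      c * h / Real.log (Real.log (Real.log x)) ≤
        Set.ncard {n : ℕ | x < 2 * n ∧ 2 * n ≤ x + h ∧ ∃ p : ℕ, p < 2 * n ∧ (p : ℝ) ≤ (x : ℝ) ^ κ ∧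
          (∀ j ≤ k, (Nat.primeCounting^[j] p).Prime) ∧ (2 * n - p).Prime} := by
  obtain ⟨δ, hδ, hδ1, hw⟩ := Pool.Agent.V5helper50.PW.window
  refine ⟨1 / 6 - δ / 48, 1 - δ / 8, by linarith, by linarith, by linarith, fun k hk => ?_⟩
  obtain ⟨c, hc, hw⟩ := hw k
  exact ⟨c / 4, by linarith, aux δ hδ hδ1 k hk c hc hw⟩

end Pool.Agent.Results.MP_5d7b92_nt.EveryShortInterval
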