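import Pool.Agent.V5helper23.KQ.Multi
import Pool.Agent.V5helper23.KP.Fam
import Pool.Agent.Y877.SxP

/-!
# Goldbach representations with a prime-indexed prime in ALL arithmetic progressions with almost all differences

A maximal theorem (of the type of Kakeya): for almost all differences `u`, EVERY progression with the difference `M u`
between `x` and `2 x`, `M` a small primorial, even with only `log ^ B x` terms, consists of numbers with at least the
expected number of representations `p + q`, `p`, `q` prime, `π(p)` prime, up to few terms. The primes `p` may be restricted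
to ANY dense set `S` of primes (which may depend on the difference and on the progression), and one `p` serves `K`
progressions at once.

Definitions used:
* `Pool.Agent.V5helper23.KQ.LongLine`, `Pool.Agent.V5helper23.KQ.ShortLine`: the two kinds of families of progressions;
* `Pool.Agent.H373R2.T7.energy p n r`: the additive energy of order `p` of `r 1, ..., r n`: the number of solutions of
  `r (m 1) + ... + r (m p) = r (m' 1) + ... + r (m' p)`.

The proof. `Λ` is compared with a sieve model. By duality (the inequality of Cauchy and Schwarz) the translations and the set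
`S` disappear, and there remain the correlations of `Λ` minus the model with its translates by `u (w - w')`, `w, w' ≤ l`, for
which the theorem on random differences of the starting files is used (`Pool.Agent.V5helper23.KQ.lam_univ`); the passage to a
model of a smaller level, which does not depend on the family, is a large sieve (`Pool.Agent.V5helper23.KQ.sieve_univ`); for
almost all terms of the progression the elements of `S` survive the small sieve (`Pool.Agent.V5helper23.KQ.rough_ap`); `K`
progressions are treated by iteration, `S` being arbitrary.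
-/

set_option autoImplicit false

open Finset
open Pool.Agent.V5helper23.KQ (LongLine ShortLine)

namespace Pool.Agent.Results.MP_5d7b92_nt.LineFamilies

/-- the product of `1 - 1/q` over the primes `q ≤ y` -/
noncomputable def V (y : ℕ) : ℝ := ∏ q ∈ (Icc 1 y).filter Nat.Prime, (1 - 1 / (q : ℝ))

/-- the primes `p ≤ x` such that `π(p)` is prime -/
noncomputable def PP (x : ℕ) : Finset ℕ := (Icc 1 x).filter (fun p => p.Prime ∧ (Nat.primeCounting p).Prime)

/-- the `p ∈ S` such that `N i - p` is a prime for all `i` -/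
def Rep {K : ℕ} (S : Finset ℕ) (N : Fin K → ℤ) : Finset ℕ := S.filter (fun p => ∀ i, (N i - (p : ℕ)).toNat.Prime)

/-- the numbers `M (a + u w)`, `1 ≤ w ≤ l`, lie in `(x, 2 x]`, `M` the product of the primes `≤ y` -/
def InRange (x y l : ℕ) (u a : ℤ) : Prop :=
  ∀ w ∈ Icc 1 l, (x : ℤ) < primorial y * (a + u * (w : ℕ)) ∧ (primorial y : ℤ) * (a + u * (w : ℕ)) ≤ 2 * x

/-- no prime `q` with `y < q ≤ z` dividing the difference `u` divides a number `M a - s` with `s ∈ S` -/
def Free (y : ℕ) (z : ℝ) (S : Finset ℕ) (u a : ℤ) : Prop :=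
  ∀ q : ℕ, q.Prime → y < q → (q : ℝ) ≤ z → (q : ℤ) ∣ u → ∀ s ∈ S, ¬ (q : ℤ) ∣ primorial y * a - (s : ℕ)

/-- the number of the vectors `w` with `1 ≤ w i ≤ l` for which fewer than `(1 - ε) #S / (V y log x) ^ K` elements `p ∈ S` are
such that `M (a i + u (w i)) - p` is prime for all `i` -/
noncomputable def bad {K : ℕ} (ε : ℝ) (x y l : ℕ) (u : ℤ) (a : Fin K → ℤ) (S : Finset ℕ) : ℕ :=
  ((Fintype.piFinset (fun _ : Fin K => Icc 1 l)).filter (fun w : Fin K → ℕ =>
    ((Rep S (fun i => (primorial y : ℤ) * (a i + u * (w i : ℕ)))).card : ℝ) <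
      (1 - ε) * (S.card / (V y * Real.log x) ^ K))).card

open Classical in
/-- The number of the `1 ≤ m ≤ n` with `r m ≠ 0` for which there are ANY integers `a i` and ANY set `S` of at least
`x / log ^ A x` primes `≤ x` such that the `K` progressions `M (a i + r(m) w)`, `1 ≤ w ≤ l`, lie in `(x, 2 x]`, the
condition `Free` holds up to `log ^ D x`, and more than `ε l ^ K` of the vectors `w` are bad. -/
noncomputable def exceptions (K A D : ℕ) (ε : ℝ) (x y n l : ℕ) (r : ℕ → ℤ) : ℕ :=
  ((Icc 1 n).filter (fun m => r m ≠ 0 ∧ ∃ a : Fin K → ℤ, (∀ i, InRange x y l (r m) (a i)) ∧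
    ∃ S : Finset ℕ, S ⊆ Icc 1 x ∧ (∀ p ∈ S, p.Prime) ∧ (x : ℝ) ≤ S.card * Real.log x ^ A ∧
      (∀ i, Free y (Real.log x ^ D) S (r m) (a i)) ∧ ε * (l : ℝ) ^ K < bad ε x y l (r m) a S)).card

open Classical in
/-- The number of the `1 ≤ m ≤ n` with `r m ≠ 0` for which there are ANY integers `a i`, divisible by all primes `q` with
`y < q ≤ log ^ D x` which divide `r m`, such that the `K` progressions `M (a i + r(m) w)`, `1 ≤ w ≤ l`, lie in `(x, 2 x]`
and for more than `ε l ^ K` of the vectors `w` there are fewer than `(1 - ε) #PP(x) / (V y log x) ^ K` primes `p ≤ x` with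
`π(p)` prime for which `M (a i + r(m) (w i)) - p` is prime for all `i`. -/
noncomputable def exceptionsPP (K D : ℕ) (ε : ℝ) (x y n l : ℕ) (r : ℕ → ℤ) : ℕ :=
  ((Icc 1 n).filter (fun m => r m ≠ 0 ∧ ∃ a : Fin K → ℤ, (∀ i, InRange x y l (r m) (a i)) ∧
    (∀ i, ∀ q : ℕ, q.Prime → y < q → (q : ℝ) ≤ Real.log x ^ D → (q : ℤ) ∣ r m → (q : ℤ) ∣ a i) ∧
    ε * (l : ℝ) ^ K < bad ε x y l (r m) a (PP x))).card

set_option maxHeartbeats 4000000 in
/-- For all `K`, `A`, `U` and `0 < ε ≤ 1` there are `K₀`, `D`, `B`, for all `K₁`, `C`, `p` there is `B'` such that for every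
large `x`, every `y` between `K₀ log log x` and `K₁ log log x`, with `M` the product of the primes `≤ y`, and all
differences `r 1, ..., r n` and lengths `l` of one of the following kinds: `LongLine` (the `r m` are
`n ≥ log ^ B' x` consecutive integers, `l ≥ log ^ B x`, `n l ≥ x / log ^ C x`) or `ShortLine` (`|r m| ≤ x` are arbitrary
integers with additive energy of order `p` at most `n ^ (2 p) log ^ C x / x`, `log ^ B x ≤ l ≤ log ^ C x`):

(1) for all but at most `n / log ^ U x` of the `m ≤ n` with `r m ≠ 0` the following holds for ALL integers `a_1, ..., a_K` and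
ALL sets `S` of at least `x / log ^ A x` primes `≤ x` such that the progressions `M (a_i + r(m) w)`, `1 ≤ w ≤ l`, lie in
`(x, 2 x]` and no prime `q` with `y < q ≤ log ^ D x` dividing `r(m)` divides a number `M a_i - s`, `s ∈ S`: for all but at
most `ε l ^ K` of the vectors `w ∈ [1, l] ^ K` there are at least `(1 - ε) #S / (V(y) log x) ^ K` elements `p` of `S` such that
all `M (a_i + r(m) w_i) - p` are prime;

(2) the same with the set of all primes `p ≤ x` with `π(p)` prime for `S` and with all `a_i` divisible by all primes `q` with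
`y < q ≤ log ^ D x` which divide `r(m)`.

(3) The values `r(m) = f(m)` of every nonconstant polynomial `f` with integer coefficients satisfy the condition of
`ShortLine` on the energy with some `p` and `C + 1` for `C` when `n ^ (deg f) ≥ x / log ^ C x`. -/
theorem result : (∀ (K A U : ℕ) (ε : ℝ), 0 < ε → ε ≤ 1 → ∃ K₀ D B : ℕ, ∀ K₁ C p : ℕ, ∃ B' x₀ : ℕ, ∀ x : ℕ, x₀ ≤ x →
    ∀ y : ℕ, K₀ * Real.log (Real.log x) ≤ y → y ≤ K₁ * Real.log (Real.log x) →
    ∀ (n l : ℕ) (r : ℕ → ℤ), (LongLine B B' C x n l r ∨ ShortLine p B C x n l r) →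
    (exceptions K A D ε x y n l r : ℝ) ≤ n / Real.log x ^ U ∧
    (exceptionsPP K D ε x y n l r : ℝ) ≤ n / Real.log x ^ U) ∧
    (∀ f : Polynomial ℤ, 1 ≤ f.natDegree → ∃ p : ℕ, ∀ C : ℕ, ∃ x₀ : ℕ, ∀ x : ℕ, x₀ ≤ x → ∀ n : ℕ,
      (x : ℝ) ≤ Real.log x ^ C * (n : ℝ) ^ f.natDegree →
      (Pool.Agent.H373R2.T7.energy p n (fun m => f.eval (m : ℤ)) : ℝ) * x ≤ Real.log x ^ (C + 1) * (n : ℝ) ^ (2 * p)) := by
  classical
  refine ⟨?_, Pool.Agent.V5helper23.KP.poly_energy⟩
  intro K A U ε hε hε1
  obtain ⟨K₀, D, B, h⟩ := Pool.Agent.V5helper23.KQ.line_multi K (max A 4) U (ε / 2) (by positivity) (by linarith)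
  refine ⟨K₀, D, B, fun K₁ C p => ?_⟩
  obtain ⟨B', x0, h⟩ := h K₁ C p
  obtain ⟨n1, hn1⟩ := Pool.Agent.Y877.SX.PPi_low
  obtain ⟨n2, hn2⟩ := Pool.Agent.H373R2.T7.ev_L' 16
  obtain ⟨n3, hn3⟩ := Pool.Agent.H373R2.T7.ev_log' (D + 3) (32 / ε)
  refine ⟨B', x0 + n1 + n2 + n3 + 1, fun x hx y hy1 hy2 n l r hfam => ?_⟩
  have hL := hn2 x (by omega)
  have hpow := hn3 x (by omega)
  have hlow : (x : ℝ) / (8 * Real.log x ^ 2) ≤ ((PP x).card : ℝ) := hn1 x (by omega)
  have hx1 : (1 : ℝ) ≤ x := by exact_mod_cast (by omega : 1 ≤ x)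
  have hL1 : 1 ≤ Real.log x := by linarith
  have hL0 : 0 < Real.log x := by linarith
  have main := h x (by omega) y hy1 hy2 n l r hfam
  have hVd : Pool.Agent.H373R2.T7.Vz y = V y := rfl
  rw [hVd] at main
  have hV0 : 0 < V y := by
    rw [← hVd]
    exact Pool.Agent.H373R2.T7.Vz_pos y
  have hVL : 0 < (V y * Real.log x) ^ K := by positivity
  refine ⟨main _ (filter_subset _ _) ?_, main _ (filter_subset _ _) ?_⟩
  · intro m hm
    rw [mem_filter] at hm
    obtain ⟨_, hr, a, hran, S, hS, hSp, hSA, hfree, hbad⟩ := hm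
    refine ⟨hr, a, hran, S, hS, hSp, hSA.trans ?_, hfree, ?_⟩
    · exact mul_le_mul_of_nonneg_left (pow_le_pow_right₀ hL1 (le_max_left _ _)) (Nat.cast_nonneg _)
    · have e1 : ε / 2 * (l : ℝ) ^ K ≤ ε * (l : ℝ) ^ K := mul_le_mul_of_nonneg_right (by linarith) (by positivity)
      refine lt_of_le_of_lt e1 (hbad.trans_le ?_)
      unfold bad
      have e2 : (1 - ε) * (S.card / (V y * Real.log x) ^ K) ≤ (1 - ε / 2) * (S.card / (V y * Real.log x) ^ K) :=
        mul_le_mul_of_nonneg_right (by linarith) (by positivity)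
      norm_cast
      apply card_le_card
      intro w hw
      rw [mem_filter] at hw ⊢
      refine ⟨hw.1, lt_of_le_of_lt (le_of_eq ?_) (lt_of_lt_of_le hw.2 e2)⟩
      unfold Rep
      congr!
  · intro m hm
    rw [mem_filter] at hm
    obtain ⟨_, hr, a, hran, hdiv, hbad⟩ := hm
    obtain ⟨S, hS⟩ : ∃ S, S = (PP x).filter (fun s : ℕ => Real.log x ^ D < (s : ℝ)) := ⟨_, rfl⟩
    have hSPP : S ⊆ PP x := by rw [hS]; exact filter_subset _ _
    have hPc0 : (0 : ℝ) ≤ (PP x).card := Nat.cast_nonneg _
    -- the small elements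
    have hsmall : ((PP x).card : ℝ) ≤ S.card + Real.log x ^ D := by
      have h1 : (((PP x).filter (fun s : ℕ => ¬ Real.log x ^ D < (s : ℝ))).card : ℝ) ≤ Real.log x ^ D := by
        have h2 : ((PP x).filter (fun s : ℕ => ¬ Real.log x ^ D < (s : ℝ))) ⊆ Icc 1 ⌊Real.log x ^ D⌋₊ := by
          intro s hs
          rw [mem_filter, not_lt] at hs
          rw [mem_Icc]
          have h3 := (mem_Icc.1 (mem_filter.1 hs.1).1).1
          exact ⟨h3, Nat.le_floor hs.2⟩
        have h3 := card_le_card h2
        rw [Nat.card_Icc, Nat.add_sub_cancel] at h3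
        calc (((PP x).filter (fun s : ℕ => ¬ Real.log x ^ D < (s : ℝ))).card : ℝ) ≤ ((⌊Real.log x ^ D⌋₊ : ℕ) : ℝ) := by
              exact_mod_cast h3
          _ ≤ Real.log x ^ D := Nat.floor_le (by positivity)
      have h4 := card_filter_add_card_filter_not (s := PP x) (fun s : ℕ => Real.log x ^ D < (s : ℝ))
      rw [← hS] at h4
      have h5 : ((PP x).card : ℝ) = S.card + ((PP x).filter (fun s : ℕ => ¬ Real.log x ^ D < (s : ℝ))).card := by
        exact_mod_cast h4.symm
      linarith
    have hsm2 : Real.log x ^ D ≤ ε / 2 * (PP x).card := by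
      rw [div_le_iff₀ (by positivity)] at hlow
      have hs : √(x : ℝ) ≤ x := by
        rw [Real.sqrt_le_left (by positivity)]
        exact le_self_pow₀ hx1 (by norm_num)
      have h1 := hpow.trans hs
      have h2 : 32 / ε * Real.log x ^ (D + 2) ≤ 8 * Real.log x ^ 2 * (PP x).card := by
        calc 32 / ε * Real.log x ^ (D + 2) ≤ 32 / ε * Real.log x ^ (D + 3) := by
              apply mul_le_mul_of_nonneg_left _ (by positivity)
              exact pow_le_pow_right₀ hL1 (by omega)
          _ ≤ x := h1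
          _ ≤ _ := by linarith
      have h3 : Real.log x ^ D * (8 * Real.log x ^ 2) ≤ ε / 2 * (PP x).card * (8 * Real.log x ^ 2) := by
        have h4 := mul_le_mul_of_nonneg_left h2 (by positivity : 0 ≤ ε / 2)
        have h5 : ε / 2 * (32 / ε * Real.log x ^ (D + 2)) = 16 * Real.log x ^ (D + 2) := by
          field_simp
          ring
        rw [h5, pow_add] at h4
        have h6 : 0 ≤ Real.log x ^ D * Real.log x ^ 2 := by positivity
        linarith
      exact le_of_mul_le_mul_right h3 (by positivity)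
    have hS2 : (1 - ε / 2) * (PP x).card ≤ S.card := by linarith
    refine ⟨hr, a, hran, S, hSPP.trans (filter_subset _ _), fun s hs => (mem_filter.1 (hSPP hs)).2.1, ?_, ?_, ?_⟩
    · rw [div_le_iff₀ (by positivity)] at hlow
      have h1 : ((PP x).card : ℝ) ≤ 2 * S.card := by
        have : 1 / 2 * ((PP x).card : ℝ) ≤ (1 - ε / 2) * (PP x).card := mul_le_mul_of_nonneg_right (by linarith) hPc0
        linarith
      have hS0 : (0 : ℝ) ≤ S.card := Nat.cast_nonneg _
      calc (x : ℝ) ≤ (PP x).card * (8 * Real.log x ^ 2) := hlow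
        _ ≤ (2 * S.card) * (8 * Real.log x ^ 2) := mul_le_mul_of_nonneg_right h1 (by positivity)
        _ = S.card * (16 * Real.log x ^ 2) := by ring
        _ ≤ S.card * (Real.log x * Real.log x ^ 2) := by
            apply mul_le_mul_of_nonneg_left _ hS0
            exact mul_le_mul_of_nonneg_right hL (by positivity)
        _ = S.card * Real.log x ^ 3 := by ring
        _ ≤ S.card * Real.log x ^ (max A 4) := by
            apply mul_le_mul_of_nonneg_left _ hS0
            exact pow_le_pow_right₀ hL1 (le_trans (by norm_num) (le_max_right _ _))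
    · intro i q q1 q2 q3 q4 s hs hd
      have h1 := hdiv i q q1 q2 q3 q4
      have h2 : (q : ℤ) ∣ ((s : ℕ) : ℤ) := (dvd_sub_right (h1.mul_left _)).1 hd
      have h3 : q ∣ s := by exact_mod_cast h2
      have h4 := (Nat.prime_dvd_prime_iff_eq q1 (mem_filter.1 (hSPP hs)).2.1).1 h3
      rw [hS, mem_filter, ← h4] at hs
      linarith [hs.2]
    · have e1 : ε / 2 * (l : ℝ) ^ K ≤ ε * (l : ℝ) ^ K := mul_le_mul_of_nonneg_right (by linarith) (by positivity)
      refine lt_of_le_of_lt e1 (hbad.trans_le ?_)
      unfold bad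
      have e2 : (1 - ε) * ((PP x).card / (V y * Real.log x) ^ K) ≤ (1 - ε / 2) * (S.card / (V y * Real.log x) ^ K) := by
        calc (1 - ε) * ((PP x).card / (V y * Real.log x) ^ K) ≤
              ((1 - ε / 2) * (1 - ε / 2)) * ((PP x).card / (V y * Real.log x) ^ K) :=
              mul_le_mul_of_nonneg_right (by nlinarith) (by positivity)
          _ = (1 - ε / 2) * (((1 - ε / 2) * (PP x).card) / (V y * Real.log x) ^ K) := by ring
          _ ≤ _ := by
              apply mul_le_mul_of_nonneg_left _ (by linarith)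
              exact div_le_div_of_nonneg_right hS2 hVL.le
      norm_cast
      apply card_le_card
      intro w hw
      rw [mem_filter] at hw ⊢
      refine ⟨hw.1, lt_of_le_of_lt ?_ (lt_of_lt_of_le hw.2 e2)⟩
      norm_cast
      unfold Rep
      refine le_trans (le_of_eq ?_) (card_le_card (filter_subset_filter _ hSPP))
      congr!

end Pool.Agent.Results.MP_5d7b92_nt.LineFamilies
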