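import Pool.Agent.V5helper54.CS.Idx

/-!
# Goldbach representations of several numbers at once with ONE prime `p` and its indices `π(p), π(π(p)), …`

The question asks for one number `2 n = p + q` with primes `p`, `q` and `π(p)` prime. Here `K ≥ 2` numbers
`N_1, …, N_K` are given, and one and the same `p`, together with its indices, has to serve all of them: the numbers
`p, π(p), …, π^k(p)` are prime and `N_i - π^{e_i}(p)` is prime for all `i ≤ K`. (With all `e_i = 0`, `k = 1`: one prime
`p` with `π(p)` prime which has the property of the question for all the numbers `N_1, …, N_K`; with `e = (0, 1, …, k)`: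
`N_0 = p + q_0`, `N_1 = π(p) + q_1`, `N_2 = π(π(p)) + q_2`, … with linked summands.)

The `N_i = M m_i` are multiples of the product `M` of the primes `≤ y`, `y` between `K₀ log log x` and
`K₁ log log x` (so `M` is a power of `log x`), and `m = (m_1, …, m_K)` runs over an arbitrary box of windows in which
`X_i ≤ N_i ≤ 2 X_i`, with `π^{e_i}(x) ≤ X_i ≤ x log^B x` (the possible sizes for `p ≤ x`, and above), of a length as short as
`X_i^(1/3) log^D x`. For all vectors `m` of the box but a proportion `ε`, at least `(1 - ε) #S / (V(y) log x)^K` of the `p ∈ S`,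
the expected number, are such that all `N_i - π^{e_i}(p)` are prime; here `S` is the set of ALL `p ≤ x` with
`p, π(p), …, π^k(p)` prime, or an ARBITRARY subset with at least `x / log^A x` elements.

Proof. Short windows and arbitrary dense sets (helper51, `Pool.Agent.V5helper51.SG.Short`: an L¹ estimate for `Λ` minus a
model along arbitrary weights in windows of length `x^(1/3) log^D x`), applied to the images of the dense sets under the
injections `p ↦ π^{e_i}(p)` and iterated `K` times: most `m_1` keep the expected proportion of the `p`, which is again a dense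
set; and so on. The number of `k`-fold prime-indexed primes is from `Pool.Agent.TH665.GP`.
-/

set_option autoImplicit false

open Finset

namespace Pool.Agent.Results.MP_5d7b92_nt.LinkedIndices

/-- the product of `1 - 1/q` over the primes `q ≤ y` -/
noncomputable def V (y : ℕ) : ℝ := ∏ q ∈ (Icc 1 y).filter Nat.Prime, (1 - 1 / (q : ℝ))

/-- the integers `p ≤ x` such that `p, π(p), π(π(p)), …, π^k(p)` are prime -/
noncomputable def PI (k x : ℕ) : Finset ℕ := (Icc 1 x).filter (fun p => ∀ j ≤ k, (Nat.primeCounting^[j] p).Prime)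

/-- the vectors `m` with `w_i < m_i ≤ w_i + G_i` -/
def Box {K : ℕ} (w G : Fin K → ℕ) : Finset (Fin K → ℕ) := Fintype.piFinset fun i => Ioc (w i) (w i + G i)

/-- the `p ∈ S` such that `N_i - π^{e_i}(p)` is prime for all `i` -/
noncomputable def Rep {K : ℕ} (S : Finset ℕ) (e N : Fin K → ℕ) : Finset ℕ := by
  classical
  exact S.filter (fun p => ∀ i, (N i - Nat.primeCounting^[e i] p).Prime)

open Classical in
/-- **Main result.** See the text above. The first assertion is known and only shows that `S = PI k x` is dense. -/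
theorem result :
    (∀ k : ℕ, ∃ c : ℝ, 0 < c ∧ ∃ x₀ : ℕ, ∀ x : ℕ, x₀ ≤ x → c * x / Real.log x ^ (k + 1) ≤ (PI k x).card) ∧
    ∀ (K k A B : ℕ) (ε : ℝ), 2 ≤ K → 0 < ε → ε ≤ 1 → ∃ K₀ : ℕ, ∀ K₁ : ℕ, ∃ D x₀ : ℕ, ∀ x : ℕ, x₀ ≤ x →
    ∀ y : ℕ, K₀ * Real.log (Real.log x) ≤ y → y ≤ K₁ * Real.log (Real.log x) →
    ∀ e X w G : Fin K → ℕ, (∀ i, e i ≤ k ∧ Nat.primeCounting^[e i] x ≤ X i ∧ (X i : ℝ) ≤ x * Real.log x ^ B) →
    (∀ i, X i ≤ primorial y * w i ∧ primorial y * (w i + G i) ≤ 2 * X i ∧
      (X i : ℝ) ^ (1 / 3 : ℝ) * Real.log x ^ D ≤ primorial y * G i) →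
    (∀ S : Finset ℕ, S ⊆ PI k x → (x : ℝ) ≤ S.card * Real.log x ^ A →
      (((Box w G).filter (fun m => ((Rep S e (fun i => primorial y * m i)).card : ℝ) <
        (1 - ε) * (S.card / (V y * Real.log x) ^ K))).card : ℝ) ≤ ε * ∏ i, (G i : ℝ)) ∧
    (((Box w G).filter (fun m => ((Rep (PI k x) e (fun i => primorial y * m i)).card : ℝ) <
        (1 - ε) * ((PI k x).card / (V y * Real.log x) ^ K))).card : ℝ) ≤ ε * ∏ i, (G i : ℝ) := by
  refine ⟨fun k => Pool.Agent.V5helper54.CS.PI_low k, fun K k A B ε _ hε hε1 => ?_⟩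
  obtain ⟨K0, hK0⟩ := Pool.Agent.V5helper54.CS.idx_main K k (max A (k + 2)) B ε hε hε1
  refine ⟨K0, fun K1 => ?_⟩
  obtain ⟨D, x0, hx0⟩ := hK0 K1
  obtain ⟨c, hc, x1, hx1⟩ := Pool.Agent.V5helper54.CS.PI_low k
  obtain ⟨x2, hx2⟩ := Pool.Agent.H373R2.T7.ev_L' (max 1 (1 / c))
  refine ⟨D, max x0 (max x1 x2), fun x hx y hy1 hy2 e X w G he hwG => ?_⟩
  have b0 : x0 ≤ x := le_trans (le_max_left _ _) hx
  have b1 : x1 ≤ x := le_trans (le_trans (le_max_left _ _) (le_max_right _ _)) hx
  have b2 : x2 ≤ x := le_trans (le_trans (le_max_right _ _) (le_max_right _ _)) hx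
  have hlow := hx1 x b1
  have hL := hx2 x b2
  have hL1 : 1 ≤ Real.log x := (le_max_left _ _).trans hL
  have hLc : 1 / c ≤ Real.log x := (le_max_right _ _).trans hL
  have hL0 : 0 < Real.log x := by linarith
  have main : ∀ S : Finset ℕ, S ⊆ PI k x → (x : ℝ) ≤ S.card * Real.log x ^ (max A (k + 2)) →
      (((Box w G).filter (fun m => ((Rep S e (fun i => primorial y * m i)).card : ℝ) <
        (1 - ε) * (S.card / (V y * Real.log x) ^ K))).card : ℝ) ≤ ε * ∏ i, (G i : ℝ) := by
    intro S hS hSc
    have h := hx0 x b0 y hy1 hy2 e X w G he hwG S hS hSc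
    refine le_trans (le_of_eq ?_) h
    unfold Box Rep
    congr!
  refine ⟨fun S hS hSc => main S hS (hSc.trans ?_), main (PI k x) (Subset.refl _) ?_⟩
  · apply mul_le_mul_of_nonneg_left _ (Nat.cast_nonneg _)
    exact pow_le_pow_right₀ hL1 (le_max_left _ _)
  · have hlow' : c * x / Real.log x ^ (k + 1) ≤ ((PI k x).card : ℝ) := hlow
    rw [div_le_iff₀ (by positivity)] at hlow'
    rw [div_le_iff₀ hc] at hLc
    have hx0r : (0 : ℝ) ≤ x := Nat.cast_nonneg _
    calc (x : ℝ) = 1 * x := by ring
      _ ≤ (Real.log x * c) * x := mul_le_mul_of_nonneg_right hLc hx0r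
      _ = (c * x) * Real.log x := by ring
      _ ≤ ((PI k x).card * Real.log x ^ (k + 1)) * Real.log x := mul_le_mul_of_nonneg_right hlow' hL0.le
      _ = (PI k x).card * Real.log x ^ (k + 2) := by ring
      _ ≤ (PI k x).card * Real.log x ^ (max A (k + 2)) := by
          apply mul_le_mul_of_nonneg_left _ (Nat.cast_nonneg _)
          exact pow_le_pow_right₀ hL1 (le_max_right _ _)

end Pool.Agent.Results.MP_5d7b92_nt.LinkedIndices
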